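import Pool.Agent.H190R3.HT.Reduce

/-!
# The rainbow Ramsey theorem for pairs is not Weihrauch reducible to the thin Hindman theorem

Every finite set extends to a solution of every instance of the thin Hindman theorem for sums of
exactly two elements, so a finite piece of a solution carries no information.  The backward
functional has to name two elements `r < s` of its rainbow from a finite piece of the instance and
of the solution; afterwards the instance is changed so that `(r, b)` and `(s, b)` have the same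
colour for all large `b`.
-/

set_option autoImplicit false

namespace Pool.Agent.Results.MP_527a81_lc.NotReducible

open Pool.Agent.H190R3.Wei Pool.Agent.H190R3.HT Filter

/-- A problem: its instances, which are points of Baire space, and the solutions of each of
them. -/
structure Problem where
  /-- the set of instances -/
  inst : Set (ℕ → ℕ)
  /-- the set of solutions of an instance -/
  sol : (ℕ → ℕ) → Set (ℕ → ℕ)

/-- `z` is the characteristic function of an infinite set of natural numbers. -/
def IsInfiniteSet (z : ℕ → ℕ) : Prop := (∀ n, z n < 2) ∧ {n | z n = 1}.Infinite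

/-- The rainbow Ramsey theorem for pairs and 2-bounded colourings: the colour of the pair `a < b`
under the instance `x` is `x (Nat.pair a b)`, every colour is used for at most two pairs; the
solutions are the infinite sets all of whose pairs have different colours. -/
def RRT22 : Problem where
  inst := {x | ∀ i, {p : ℕ × ℕ | p.1 < p.2 ∧ x (Nat.pair p.1 p.2) = i}.encard ≤ 2}
  sol x := {z | IsInfiniteSet z ∧ ∀ a b a' b', a < b → a' < b' → z a = 1 → z b = 1 → z a' = 1 →
    z b' = 1 → x (Nat.pair a b) = x (Nat.pair a' b') → a = a' ∧ b = b'}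

/-- The thin Hindman theorem for sums of exactly two elements: the instances are all the colourings
`x` of the natural numbers with natural numbers, the solutions are the infinite sets `H` such that
some colour is not the colour of `a + b` for any `a < b` in `H`. -/
def ThinHT2 : Problem where
  inst := Set.univ
  sol x := {z | IsInfiniteSet z ∧ ∃ n, ∀ a b, a < b → z a = 1 → z b = 1 → x (a + b) ≠ n}

/-- The functionals given by `φ` and `ψ` reduce `P` to `Q`: for every instance `x` of `P`, `Φ(x)` is
an instance of `Q`, and for every solution `z` of `Φ(x)`, `Ψ(x ⊕ z)` is a solution of `x`. -/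
def Reduces (φ ψ : List ℕ → List ℕ) (P Q : Problem) : Prop :=
  ∀ x ∈ P.inst, ∃ y ∈ Q.inst, Maps φ x y ∧
    ∀ z ∈ Q.sol y, ∃ w ∈ P.sol x, Maps ψ (pair x z) w

/-- Weihrauch reducibility: the functionals are given by computable monotone word functions. -/
def WeihrauchLE (P Q : Problem) : Prop :=
  ∃ φ ψ : List ℕ → List ℕ, IsMachine φ ∧ IsMachine ψ ∧ Reduces φ ψ P Q

/-- Continuous Weihrauch reducibility: arbitrary word functions. -/
def ContinuousLE (P Q : Problem) : Prop := ∃ φ ψ : List ℕ → List ℕ, Reduces φ ψ P Q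

/-- a non-principal ultrafilter on the integers containing all final segments -/
theorem exists_uf : ∃ p : Ultrafilter ℤ, ∀ n : ℤ, ∀ᶠ y in (p : Filter ℤ), n ≤ y :=
  ⟨Ultrafilter.of atTop, fun n => (Ultrafilter.of_le atTop) (eventually_ge_atTop n)⟩

/-- every finite set is an initial part of a solution -/
theorem thin_extend (y : ℕ → ℕ) (E : Finset ℕ) (m : ℕ) (hE : ∀ x ∈ E, x < m) :
    ∃ z ∈ ThinHT2.sol y, ∀ k < m, z k = 1 ↔ k ∈ E := by
  classical
  obtain ⟨p, hp⟩ := exists_uf
  -- a colour is bad if it is the colour of a sum of two elements of `E` or a limit colour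
  set B1 : Finset ℕ := (E ×ˢ E).image fun q => y (q.1 + q.2) with hB1
  have hB2 : ∃ B2 : Finset ℕ, ∀ x ∈ E, ∀ n, n ∉ B2 →
      ∀ᶠ b in (p : Filter ℤ), y ((x : ℤ) + b).toNat ≠ n := by
    let lim : ℕ → ℕ := fun x => if h : ∃ n, ∀ᶠ b in (p : Filter ℤ), y ((x : ℤ) + b).toNat = n
      then h.choose else 0
    refine ⟨E.image lim, fun x hx n hn => ?_⟩
    rw [← not_not (a := ∀ᶠ b in (p : Filter ℤ), y ((x : ℤ) + b).toNat ≠ n)]
    intro hcon
    rw [← Ultrafilter.eventually_not] at hcon
    have h1 : ∀ᶠ b in (p : Filter ℤ), y ((x : ℤ) + b).toNat = n :=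
      hcon.mono fun b hb => not_not.1 hb
    have hex : ∃ n, ∀ᶠ b in (p : Filter ℤ), y ((x : ℤ) + b).toNat = n := ⟨n, h1⟩
    have h2 : lim x = hex.choose := dif_pos hex
    have h3 := hex.choose_spec
    rw [← h2] at h3
    obtain ⟨b, hb1, hb2⟩ := (h1.and h3).exists
    apply hn
    rw [Finset.mem_image]
    exact ⟨x, hx, hb2.symm.trans hb1⟩
  obtain ⟨B2, hB2⟩ := hB2
  obtain ⟨n1, hn1⟩ := Infinite.exists_notMem_finset (B1 ∪ B2)
  obtain ⟨n2, hn2⟩ := Infinite.exists_notMem_finset (insert n1 (B1 ∪ B2))
  have hne : n2 ≠ n1 := by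
    intro h
    apply hn2
    rw [h]
    exact Finset.mem_insert_self _ _
  have hn2' : n2 ∉ B1 ∪ B2 := fun h => hn2 (Finset.mem_insert_of_mem h)
  have hn : ∃ n, n ∉ B1 ∪ B2 ∧
      ∀ᶠ a in (p : Filter ℤ), ∀ᶠ b in (p : Filter ℤ), y (a + b).toNat ≠ n := by
    by_contra hcon
    push Not at hcon
    have key : ∀ n, n ∉ B1 ∪ B2 →
        ∀ᶠ a in (p : Filter ℤ), ∀ᶠ b in (p : Filter ℤ), y (a + b).toNat = n := by
      intro n hn
      exact hcon n hn
    obtain ⟨a, ha1, ha2⟩ := ((key n1 hn1).and (key n2 hn2')).exists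
    obtain ⟨b, hb1, hb2⟩ := (ha1.and ha2).exists
    exact hne (hb2.symm.trans hb1)
  obtain ⟨n, hnB, hnn⟩ := hn
  have hnB1 : n ∉ B1 := fun h => hnB (Finset.mem_union_left _ h)
  have hnB2 : n ∉ B2 := fun h => hnB (Finset.mem_union_right _ h)
  obtain ⟨H, h1, h2, h3, -⟩ := extend (fun w => decide (y w.toNat = n)) false p hp Set.univ
    (Filter.Eventually.of_forall fun _ => trivial) E m hE
    (by
      intro a ha b hb _
      apply decide_eq_false
      intro h
      apply hnB1
      rw [hB1, Finset.mem_image]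
      refine ⟨(a, b), Finset.mem_product.2 ⟨ha, hb⟩, ?_⟩
      rw [← h]
      show y (a + b) = y ((a : ℤ) + b).toNat
      congr 1)
    (by
      intro x hx
      exact (hB2 x hx n hnB2).mono fun b hb => decide_eq_false hb)
    (by
      refine hnn.mono fun a ha => ha.mono fun b hb => decide_eq_false hb)
  refine ⟨chi H, ⟨⟨chi_lt H, ?_⟩, n, ?_⟩, ?_⟩
  · have : {n | chi H n = 1} = H := by ext k; exact chi_eq_one
    rw [this]; exact h1
  · intro a b hab ha hb hcon
    have := h3 a (chi_eq_one.1 ha) b (chi_eq_one.1 hb) hab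
    have h4 := of_decide_eq_false this
    apply h4
    rw [← hcon]
    congr 1
  · intro k hk
    rw [chi_eq_one]
    exact h2 k hk

/-- the modified instance -/
def mod (r s m : ℕ) (k : ℕ) : ℕ :=
  if m ≤ k ∧ (Nat.unpair k).1 = s then Nat.pair r (Nat.unpair k).2 else k

theorem mod_inst (r s m : ℕ) : mod r s m ∈ RRT22.inst := by
  intro i
  have hsub : {p : ℕ × ℕ | p.1 < p.2 ∧ mod r s m (Nat.pair p.1 p.2) = i} ⊆
      {((Nat.unpair i).1, (Nat.unpair i).2), (s, (Nat.unpair i).2)} := by
    rintro ⟨a, b⟩ ⟨-, h⟩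
    unfold mod at h
    simp only [Nat.unpair_pair] at h
    split_ifs at h with h1
    · right
      rw [← h, Nat.unpair_pair]
      simp only [Set.mem_singleton_iff, Prod.mk.injEq, and_true]
      exact h1.2
    · left
      rw [← h, Nat.unpair_pair]
  refine (Set.encard_le_encard hsub).trans ?_
  refine (Set.encard_insert_le _ _).trans ?_
  rw [Set.encard_singleton]
  norm_num

theorem not_RRT22 : ¬ ContinuousLE RRT22 ThinHT2 := by
  classical
  rintro ⟨φ, ψ, hred⟩
  have hx0 : (fun n => n : ℕ → ℕ) ∈ RRT22.inst := by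
    intro i
    have hsub : {p : ℕ × ℕ | p.1 < p.2 ∧ (fun n => n : ℕ → ℕ) (Nat.pair p.1 p.2) = i} ⊆
        {((Nat.unpair i).1, (Nat.unpair i).2)} := by
      rintro ⟨a, b⟩ ⟨-, h⟩
      have h' : Nat.pair a b = i := h
      rw [← h', Nat.unpair_pair]
      rfl
    refine (Set.encard_le_encard hsub).trans ?_
    rw [Set.encard_singleton]
    exact one_le_two
  obtain ⟨y0, -, -, h0⟩ := hred _ hx0
  obtain ⟨z0, hz0, -⟩ := thin_extend y0 ∅ 0 (by simp)
  obtain ⟨w0, ⟨⟨-, hw0⟩, -⟩, hm0⟩ := h0 z0 hz0
  obtain ⟨r, hr⟩ := hw0.nonempty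
  obtain ⟨s, hs, hrs⟩ := hw0.exists_gt r
  obtain ⟨m, hm⟩ := maps_cont hm0 (s + 1)
  obtain ⟨y1, -, -, h1⟩ := hred _ (mod_inst r s m)
  obtain ⟨z1, hz1, hz1'⟩ := thin_extend y1 ((Finset.range m).filter fun k => z0 k = 1) m
    (by intro x hx; simp only [Finset.mem_filter, Finset.mem_range] at hx; exact hx.1)
  obtain ⟨w1, ⟨⟨-, hw1⟩, hw1'⟩, hm1⟩ := h1 z1 hz1
  have hagree := hm (pair (mod r s m) z1) w1 (by
    intro k hk
    unfold pair
    split_ifs with hk2
    · unfold mod
      rw [if_neg (by omega)]
    · have h2 := hz1' (k / 2) (by omega)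
      simp only [Finset.mem_filter, Finset.mem_range] at h2
      have h3 := hz0.1.1 (k / 2)
      have h4 := hz1.1.1 (k / 2)
      have h5 : z1 (k / 2) = 1 ↔ z0 (k / 2) = 1 := by
        rw [h2]
        exact ⟨fun h => h.2, fun h => ⟨by omega, h⟩⟩
      omega) hm1
  have hr1 : w1 r = 1 := by rw [hagree r (by omega)]; exact hr
  have hs1 : w1 s = 1 := by rw [hagree s (by omega)]; exact hs
  obtain ⟨b, hb, hmb⟩ := hw1.exists_gt (max m s)
  have hb' : w1 b = 1 := hb
  have hmb1 : m < b := lt_of_le_of_lt (le_max_left _ _) hmb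
  have hsb : s < b := lt_of_le_of_lt (le_max_right _ _) hmb
  have hrb : r < b := lt_trans hrs hsb
  have h6 := hw1' r b s b hrb hsb hr1 hb' hs1 hb' (by
    have e1 : mod r s m (Nat.pair r b) = Nat.pair r b := by
      unfold mod
      rw [if_neg]
      rw [Nat.unpair_pair]
      intro h
      have : r = s := h.2
      omega
    have e2 : mod r s m (Nat.pair s b) = Nat.pair r b := by
      unfold mod
      rw [if_pos, Nat.unpair_pair]
      refine ⟨?_, by rw [Nat.unpair_pair]⟩
      exact le_trans hmb1.le (Nat.right_le_pair s b)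
    rw [e1, e2])
  omega

/-- **Negative answer to Q1.**  The rainbow Ramsey theorem for pairs and 2-bounded colourings is not
Weihrauch reducible to the thin Hindman theorem for sums of exactly two elements, not even by means
of continuous functionals. -/
theorem result : ¬ WeihrauchLE RRT22 ThinHT2 ∧ ¬ ContinuousLE RRT22 ThinHT2 := by
  refine ⟨?_, not_RRT22⟩
  rintro ⟨φ, ψ, -, -, h⟩
  exact not_RRT22 ⟨φ, ψ, h⟩

end Pool.Agent.Results.MP_527a81_lc.NotReducible
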